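import Mathlib
import Pool.Agent.W875.NK.Spec

namespace Pool.Agent.W61.NK

open Module

theorem dvd_of_maximal (k R : Type) [Field k] [CommRing R] [Algebra k R]
    (hR : ∀ m : Ideal R, m.IsMaximal → FiniteDimensional k (R ⧸ m) → 3 ∣ finrank k (R ⧸ m)) :
    ∀ (n : ℕ) (W : Type) [AddCommGroup W] [Module k W] [Module R W] [IsScalarTower k R W]
      [FiniteDimensional k W], finrank k W = n → 3 ∣ finrank k W := by
  intro n
  induction n using Nat.strong_induction_on with
  | _ n ih =>
    intro W _ _ _ _ _ hn
    have : IsNoetherian k W := inferInstance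
    have : IsNoetherian R W := isNoetherian_of_tower k this
    rcases eq_top_or_exists_le_coatom (⊥ : Submodule R W) with h | ⟨W', hW', -⟩
    · have hsub : Subsingleton W := by
        rw [← Submodule.subsingleton_iff R]
        exact subsingleton_of_bot_eq_top h
      rw [finrank_zero_of_subsingleton]
      exact dvd_zero 3
    · have hs : IsSimpleModule R (W ⧸ W') := isSimpleModule_iff_isCoatom.2 hW'
      obtain ⟨I, hI, ⟨e⟩⟩ := isSimpleModule_iff_quot_maximal.1 hs
      let q : W →ₗ[k] (W ⧸ W') := (W'.mkQ).restrictScalars k
      have hq : Function.Surjective q := W'.mkQ_surjective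
      have : FiniteDimensional k (W ⧸ W') := Module.Finite.of_surjective q hq
      let e' : (W ⧸ W') ≃ₗ[k] (R ⧸ I) := e.restrictScalars k
      have : FiniteDimensional k (R ⧸ I) := Module.Finite.equiv e'
      have h1 : 3 ∣ finrank k (W ⧸ W') := by
        rw [e'.finrank_eq]
        exact hR I hI inferInstance
      let j : W' →ₗ[k] W := (W'.subtype).restrictScalars k
      have hj : Function.Injective j := W'.injective_subtype
      have : FiniteDimensional k W' := Module.Finite.of_injective j hj
      have hker : LinearMap.ker q = LinearMap.range j := by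
        ext w
        constructor
        · intro hw
          have : w ∈ W' := (Submodule.Quotient.mk_eq_zero W').1 hw
          exact ⟨⟨w, this⟩, rfl⟩
        · rintro ⟨w, rfl⟩
          exact (Submodule.Quotient.mk_eq_zero W').2 w.2
      have h2 : finrank k (W ⧸ W') + finrank k W' = finrank k W := by
        have h3 := LinearMap.finrank_range_add_finrank_ker q
        rw [LinearMap.range_eq_top.2 hq, finrank_top, hker, LinearMap.finrank_range_of_inj hj] at h3
        exact h3
      have : Nontrivial (R ⧸ I) := Ideal.Quotient.nontrivial_iff.2 hI.ne_top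
      have h4 : 0 < finrank k (W ⧸ W') := by
        rw [e'.finrank_eq]
        exact finrank_pos
      have h5 : 3 ∣ finrank k W' := ih (finrank k W') (by omega) W' rfl
      rw [← h2]
      exact dvd_add h1 h5

theorem partB : W875.NK.PartB := by
  intro k _ t hL V _ _ _ a b c hab hac hbc hF hbc1
  have hcomm : ∀ x ∈ ({a, b, c} : Set (Module.End k V)), ∀ y ∈ ({a, b, c} : Set (Module.End k V)),
      x * y = y * x := by
    rintro x (rfl | rfl | rfl) y (rfl | rfl | rfl)
    · rfl
    · exact hab
    · exact hac
    · exact hab.symm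
    · rfl
    · exact hbc
    · exact hac.symm
    · exact hbc.symm
    · rfl
  let : CommRing (Algebra.adjoin k ({a, b, c} : Set (Module.End k V))) :=
    Algebra.adjoinCommRingOfComm k hcomm
  refine dvd_of_maximal k (Algebra.adjoin k ({a, b, c} : Set (Module.End k V))) ?_ _ V rfl
  intro m hm hfin
  let : Field (Algebra.adjoin k ({a, b, c} : Set (Module.End k V)) ⧸ m) :=
    Ideal.Quotient.field m
  have ha : a ∈ Algebra.adjoin k ({a, b, c} : Set (Module.End k V)) :=
    Algebra.subset_adjoin (by simp)
  have hb : b ∈ Algebra.adjoin k ({a, b, c} : Set (Module.End k V)) :=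
    Algebra.subset_adjoin (by simp)
  have hc : c ∈ Algebra.adjoin k ({a, b, c} : Set (Module.End k V)) :=
    Algebra.subset_adjoin (by simp)
  let a' : Algebra.adjoin k ({a, b, c} : Set (Module.End k V)) := ⟨a, ha⟩
  let b' : Algebra.adjoin k ({a, b, c} : Set (Module.End k V)) := ⟨b, hb⟩
  let c' : Algebra.adjoin k ({a, b, c} : Set (Module.End k V)) := ⟨c, hc⟩
  have hF' : a' ^ 3 + t • b' ^ 3 + t ^ 2 • c' ^ 3 + t • (a' * b' * c') = 0 := by
    apply Subtype.ext
    exact hF
  refine hL (Algebra.adjoin k ({a, b, c} : Set (Module.End k V)) ⧸ m)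
    (Ideal.Quotient.mk m a') (Ideal.Quotient.mk m b') (Ideal.Quotient.mk m c') ?_ ?_
  · have h := congrArg (Ideal.Quotient.mk m) hF'
    rw [Algebra.smul_def, Algebra.smul_def, Algebra.smul_def] at h
    simp only [map_add, map_mul, map_pow, map_zero] at h
    exact h
  · rintro ⟨-, h2, h3⟩
    rcases hbc1 with h | h
    · have : b' = 1 := Subtype.ext h
      rw [this, map_one] at h2
      exact one_ne_zero h2
    · have : c' = 1 := Subtype.ext h
      rw [this, map_one] at h3
      exact one_ne_zero h3

end Pool.Agent.W61.NK
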